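import Pool.Agent.H.Tcs70.Wr

set_option autoImplicit false

namespace Pool.Agent.Results.MP_4bad09_co.ManyFold

open Finset Tcs70

lemma count {n k m : ℕ} (hn : 0 < n) (σ : Fin m → Equiv.Perm (Fin n)) (s : Finset (Fin n)) :
    (Nat.card {p : Fin m × Fin (n / Nat.gcd n k) //
      (Finset.univ : Finset (Fin k)).image
        (fun j => σ p.1 ⟨(p.2.val * k + j.val) % n, Nat.mod_lt _ hn⟩) = s} : ℤ) =
      (∑ i, vec (wr n k hn) (σ i)) s := by
  classical
  rw [Nat.card_eq_fintype_card, Fintype.card_subtype, Finset.card_filter]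
  push_cast
  rw [Fintype.sum_prod_type, Finset.sum_apply]
  refine Finset.sum_congr rfl fun i _ => ?_
  rw [vec, Finset.sum_apply]
  refine Finset.sum_congr rfl fun q _ => ?_
  rw [e, Pi.single_apply]
  have h1 : (wr n k hn q).map (σ i).toEmbedding = (Finset.univ : Finset (Fin k)).image
        (fun j => σ i ⟨(q.val * k + j.val) % n, Nat.mod_lt _ hn⟩) := by
    rw [wr, Finset.map_eq_image, Finset.image_image]
    rfl
  rw [h1]
  simp only [eq_comm]

lemma dvd_choose {n k : ℕ} (hk : 1 ≤ k) (hkn : k ≤ n) :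
    k / Nat.gcd n k ∣ (n - 1).choose (k - 1) := by
  have hn : 0 < n := by omega
  have hg : 0 < Nat.gcd n k := Nat.gcd_pos_of_pos_left _ hn
  have h1 : n * (n - 1).choose (k - 1) = n.choose k * k := by
    have := Nat.add_one_mul_choose_eq (n - 1) (k - 1)
    rwa [Nat.sub_add_cancel hn, Nat.sub_add_cancel hk] at this
  have e1 : n / Nat.gcd n k * Nat.gcd n k = n := Nat.div_mul_cancel (Nat.gcd_dvd_left n k)
  have e2 : k / Nat.gcd n k * Nat.gcd n k = k := Nat.div_mul_cancel (Nat.gcd_dvd_right n k)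
  have h2 : (n / Nat.gcd n k) * (n - 1).choose (k - 1) = n.choose k * (k / Nat.gcd n k) := by
    apply Nat.eq_of_mul_eq_mul_right hg
    calc (n / Nat.gcd n k) * (n - 1).choose (k - 1) * Nat.gcd n k
        = (n / Nat.gcd n k * Nat.gcd n k) * (n - 1).choose (k - 1) := by ring
      _ = n.choose k * k := by rw [e1, h1]
      _ = n.choose k * (k / Nat.gcd n k * Nat.gcd n k) := by rw [e2]
      _ = n.choose k * (k / Nat.gcd n k) * Nat.gcd n k := by ring
  have h3 : k / Nat.gcd n k ∣ (n / Nat.gcd n k) * (n - 1).choose (k - 1) := by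
    rw [h2]; exact Dvd.intro_left _ rfl
  exact (Nat.coprime_div_gcd_div_gcd hg).symm.dvd_of_dvd_mul_left h3

lemma map_compl' {n : ℕ} (σ : Equiv.Perm (Fin n)) (A : Finset (Fin n)) :
    (A.map σ.toEmbedding)ᶜ = (Aᶜ).map σ.toEmbedding := by
  ext x
  simp [Finset.mem_map_equiv]

lemma gcd_eq {n k k' : ℕ} (hkk : k + k' = n) : Nat.gcd n k = Nat.gcd n k' := by
  subst hkk
  rw [Nat.gcd_comm (k + k') k, Nat.gcd_comm (k + k') k', Nat.gcd_self_add_right,
    Nat.gcd_add_self_right, Nat.gcd_comm]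

lemma vec_compl {n k k' : ℕ} (hn : 0 < n) (hkk : k + k' = n) (σ : Equiv.Perm (Fin n))
    (s : Finset (Fin n)) : vec (wr n k' hn) σ sᶜ = vec (wr n k hn) σ s := by
  classical
  have hN : n / Nat.gcd n k = n / Nat.gcd n k' := by rw [gcd_eq hkk]
  simp only [vec, Finset.sum_apply]
  symm
  refine Fintype.sum_equiv (Fin.revPerm.trans (finCongr hN)) _ _ fun p => ?_
  have h1 : (wr n k hn p)ᶜ = wr n k' hn ((Fin.revPerm.trans (finCongr hN)) p) := by
    apply wr_compl n k k' hn hkk
    simp [Fin.val_rev]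
    have := p.2
    omega
  rw [← h1, ← map_compl']
  simp only [e, Pi.single_apply, compl_inj_iff]

/-- the part of a weighting on the `k`-sets -/
def cut {n : ℕ} (k : ℕ) (w : Finset (Fin n) → ℤ) : Finset (Fin n) → ℤ :=
  fun s => if s.card = k then w s else 0

lemma deg_cut {n : ℕ} (k : ℕ) (w : Finset (Fin n) → ℤ) (v : Fin n) :
    ∑ s with v ∈ s, cut k w s =
      ∑ s ∈ (Finset.univ : Finset (Finset (Fin n))) with (s.card = k ∧ v ∈ s), w s := by
  simp only [cut]
  rw [← Finset.sum_filter, Finset.filter_filter]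
  refine Finset.sum_congr ?_ fun _ _ => rfl
  ext s
  simp [and_comm]

lemma exists_map {n : ℕ} (A B : Finset (Fin n)) (h : A.card = B.card) :
    ∃ σ : Equiv.Perm (Fin n), A.map σ.toEmbedding = B := by
  classical
  let ε : A ≃ B := Finset.equivOfCardEq h
  obtain ⟨τ, hτ⟩ := exists_perm (fun x : A => (x : Fin n)) (fun x => (ε x : Fin n))
    Subtype.val_injective (Subtype.val_injective.comp ε.injective)
  refine ⟨τ, ?_⟩
  ext y
  rw [Finset.mem_map]
  constructor
  · rintro ⟨x, hx, rfl⟩
    rw [Equiv.coe_toEmbedding, hτ ⟨x, hx⟩]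
    exact (ε _).2
  · intro hy
    refine ⟨(ε.symm ⟨y, hy⟩ : Fin n), (ε.symm ⟨y, hy⟩).2, ?_⟩
    rw [Equiv.coe_toEmbedding, hτ (ε.symm ⟨y, hy⟩), Equiv.apply_symm_apply]

/-- case `2k < n` -/
lemma small {n k : ℕ} (hn : 0 < n) (hk : 1 ≤ k) (h2k : 2 * k + 1 ≤ n) (w : Finset (Fin n) → ℤ)
    (c : ℤ) (hc : ∀ v, ∑ s with v ∈ s, cut k w s = (k / Nat.gcd n k : ℕ) * c) :
    ∃ Λ : ℕ, ∀ l : ℕ, Λ ≤ l → cut k w + (l : ℤ) • J k ∈ N (wr n k hn) := by
  have hkn : k ≤ n := by omega
  have hg : 0 < Nat.gcd n k := Nat.gcd_pos_of_pos_left _ hn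
  have hN : 0 < n / Nat.gcd n k := Nat.div_pos (Nat.le_of_dvd hn (Nat.gcd_dvd_left n k)) hg
  have : Nonempty (Fin (n / Nat.gcd n k)) := ⟨⟨0, hN⟩⟩
  obtain ⟨Λ, hΛ⟩ := big (wr n k hn) k (k / Nat.gcd n k) hk (by rw [Fintype.card_fin]; omega)
    (wr_card n k hn hkn) (wr_deg n k hn hkn) (octs_le_wr n k hn hk h2k) (cut k w)
    (fun s hs => by simp [cut, hs]) c hc
  refine ⟨Λ, fun l hl => hΛ l hl ?_⟩
  rw [Fintype.card_fin]
  exact Dvd.dvd.mul_left (dvd_choose hk hkn) l

/-- case `n = 2k` -/
lemma half {n k : ℕ} (hn : 0 < n) (h2k : n = 2 * k) (x : Finset (Fin n) → ℤ)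
    (hx0 : ∀ s, 0 ≤ x s) (hx : ∀ s, s.card ≠ k → x s = 0) (hxc : ∀ s, x sᶜ = x s) :
    x ∈ N (wr n k hn) := by
  classical
  have hg : Nat.gcd n k = k := by rw [h2k]; simp
  have hN : n / Nat.gcd n k = 2 := by
    rw [hg, h2k]; exact Nat.mul_div_cancel _ (by omega)
  let p0 : Fin (n / Nat.gcd n k) := ⟨0, by omega⟩
  let p1 : Fin (n / Nat.gcd n k) := ⟨1, by omega⟩
  have h01 : (wr n k hn p0)ᶜ = wr n k hn p1 := wr_compl n k k hn (by omega) p0 p1 (by
    simp [p0, p1, hN])
  have hvec : ∀ σ, vec (wr n k hn) σ =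
      e ((wr n k hn p0).map σ.toEmbedding) + e ((wr n k hn p0).map σ.toEmbedding)ᶜ := by
    intro σ
    rw [vec, Fintype.sum_eq_add p0 p1 (by simp [p0, p1])]
    · rw [← h01, map_compl']
    · rintro p ⟨hp0, hp1⟩
      exfalso
      have h2 := p.2
      have h3 : p.val ≠ 0 := fun h => hp0 (Fin.ext h)
      have h4 : p.val ≠ 1 := fun h => hp1 (Fin.ext h)
      omega
  have hex : ∀ A : Finset (Fin n), A.card = k → e A + e Aᶜ ∈ N (wr n k hn) := by
    intro A hA
    obtain ⟨σ, hσ⟩ := exists_map (wr n k hn p0) A (by rw [wr_card n k hn (by omega), hA])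
    rw [← hσ, ← hvec]
    exact AddSubmonoid.subset_closure ⟨σ, rfl⟩
  let z : Fin n := ⟨0, hn⟩
  have hkey : x = ∑ A ∈ (univ : Finset (Finset (Fin n))) with (A.card = k ∧ z ∈ A),
      (x A).toNat • (e A + e Aᶜ) := by
    funext s
    rw [Finset.sum_apply]
    have h1 : ∀ A : Finset (Fin n), ((x A).toNat • (e A + e Aᶜ)) s =
        (if s = A then x A else 0) + (if sᶜ = A then x A else 0) := by
      intro A
      rw [Pi.smul_apply, Pi.add_apply, e, e, Pi.single_apply, Pi.single_apply, nsmul_eq_mul,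
        Int.toNat_of_nonneg (hx0 A)]
      have h2 : (s = Aᶜ) ↔ (sᶜ = A) := by
        constructor
        · rintro rfl; exact compl_compl A
        · rintro rfl; exact (compl_compl s).symm
      simp only [h2]
      split_ifs <;> ring
    simp_rw [h1]
    rw [Finset.sum_add_distrib, Finset.sum_ite_eq, Finset.sum_ite_eq]
    simp only [Finset.mem_filter, Finset.mem_univ, true_and, Finset.mem_compl, hxc]
    have hcc : sᶜ.card = n - s.card := by rw [Finset.card_compl, Fintype.card_fin]
    by_cases hs : s.card = k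
    · have hs' : sᶜ.card = k := by rw [hcc, hs]; omega
      by_cases hz : z ∈ s
      · simp [hs, hz]
      · simp [hs, hs', hz]
    · have hs' : sᶜ.card ≠ k := by
        rw [hcc]
        have : s.card ≤ n := by simpa using Finset.card_le_univ s
        omega
      simp [hs, hs', hx s hs]
  rw [hkey]
  refine (N _).sum_mem fun A hA => (N _).nsmul_mem (hex A (Finset.mem_filter.1 hA).2.1) _

/-- case `n = k` -/
lemma full {n : ℕ} (hn : 0 < n) (x : Finset (Fin n) → ℤ)
    (hx0 : ∀ s, 0 ≤ x s) (hx : ∀ s, s.card ≠ n → x s = 0) :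
    x ∈ N (wr n n hn) := by
  classical
  have hN : n / Nat.gcd n n = 1 := by rw [Nat.gcd_self]; exact Nat.div_self hn
  let p0 : Fin (n / Nat.gcd n n) := ⟨0, by omega⟩
  have hu : ∀ A : Finset (Fin n), A.card = n → A = univ := fun A hA =>
    (Finset.card_eq_iff_eq_univ A).1 (by rw [hA, Fintype.card_fin])
  have hvec : vec (wr n n hn) 1 = e univ := by
    rw [vec, Fintype.sum_eq_single p0]
    · rw [hu ((wr n n hn p0).map (1 : Equiv.Perm (Fin n)).toEmbedding)
        (by rw [Finset.card_map, wr_card n n hn le_rfl])]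
    · intro p hp
      exfalso
      have h2 := p.2
      have h3 : p.val ≠ 0 := fun h => hp (Fin.ext h)
      omega
  have hkey : x = (x univ).toNat • vec (wr n n hn) 1 := by
    rw [hvec]
    funext s
    rw [Pi.smul_apply, e, Pi.single_apply, nsmul_eq_mul, Int.toNat_of_nonneg (hx0 _)]
    by_cases hs : s = univ
    · rw [if_pos hs, mul_one, hs]
    · rw [if_neg hs, mul_zero]
      exact hx s fun h => hs (hu s h)
  rw [hkey]
  exact (N _).nsmul_mem (AddSubmonoid.subset_closure ⟨1, rfl⟩) _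

/-- nonnegativity for large `l` -/
lemma nonneg_large {n : ℕ} (k : ℕ) (w : Finset (Fin n) → ℤ) :
    ∃ Λ : ℕ, ∀ l : ℕ, Λ ≤ l → ∀ s, 0 ≤ (cut k w + (l : ℤ) • J (V := Fin n) k) s := by
  refine ⟨∑ s, (w s).natAbs, fun l hl s => ?_⟩
  simp only [Pi.add_apply, Pi.smul_apply, smul_eq_mul, cut, J]
  split_ifs
  · have h1 : (w s).natAbs ≤ ∑ s, (w s).natAbs :=
      Finset.single_le_sum (f := fun s => (w s).natAbs) (fun _ _ => Nat.zero_le _)
        (Finset.mem_univ s)
    omega
  · simp

/-- complementation -/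
lemma compl_mem {n k k' : ℕ} (hn : 0 < n) (hkk : k + k' = n) (x : Finset (Fin n) → ℤ)
    (hx : x ∈ N (wr n k' hn)) : (fun s => x sᶜ) ∈ N (wr n k hn) := by
  refine AddSubmonoid.closure_induction (motive := fun x _ => (fun s => x sᶜ) ∈ N (wr n k hn))
    ?_ ?_ ?_ hx
  · rintro x ⟨σ, rfl⟩
    refine AddSubmonoid.subset_closure ⟨σ, ?_⟩
    funext s
    exact (vec_compl hn hkk σ s).symm
  · exact (N _).zero_mem
  · rintro x y - - h1 h2
    exact (N _).add_mem h1 h2

lemma cut_add_supp {n : ℕ} (k : ℕ) (w : Finset (Fin n) → ℤ) (l : ℤ) (s : Finset (Fin n))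
    (hs : s.card ≠ k) : (cut k w + l • J (V := Fin n) k) s = 0 := by
  simp [cut, J, hs]

/-- the forward direction -/
lemma forward {n k : ℕ} (hn : 0 < n) (hk : 1 ≤ k) (hkn : k ≤ n) (w : Finset (Fin n) → ℤ)
    (c : ℤ) (hc : ∀ v, ∑ s with v ∈ s, cut k w s = (k / Nat.gcd n k : ℕ) * c)
    (hsym : n = 2 * k → ∀ s : Finset (Fin n), s.card = k → w sᶜ = w s) :
    ∃ Λ : ℕ, ∀ l : ℕ, Λ ≤ l → cut k w + (l : ℤ) • J k ∈ N (wr n k hn) := by
  classical
  rcases lt_trichotomy (2 * k) n with h | h | h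
  · exact small hn hk h w c hc
  · obtain ⟨Λ, hΛ⟩ := nonneg_large k w
    refine ⟨Λ, fun l hl => half hn h.symm _ (hΛ l hl) (cut_add_supp k w l) fun s => ?_⟩
    have hcc : sᶜ.card = n - s.card := by rw [Finset.card_compl, Fintype.card_fin]
    have hle : s.card ≤ n := by simpa using Finset.card_le_univ s
    simp only [Pi.add_apply, Pi.smul_apply, smul_eq_mul, cut, J]
    by_cases hs : s.card = k
    · rw [if_pos hs, if_pos hs, if_pos (by omega), if_pos (by omega), hsym h.symm s hs]
    · rw [if_neg hs, if_neg hs, if_neg (by omega), if_neg (by omega)]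
  · rcases Nat.lt_or_ge k n with hlt | hge
    · obtain ⟨k', hkk⟩ := Nat.exists_eq_add_of_le hkn
      have hkk' : k + k' = n := hkk.symm
      have hg : 0 < Nat.gcd n k := Nat.gcd_pos_of_pos_left _ hn
      have hgz : (Nat.gcd n k : ℤ) ≠ 0 := by exact_mod_cast hg.ne'
      have e1 : ((n / Nat.gcd n k : ℕ) : ℤ) * (Nat.gcd n k : ℕ) = n := by
        exact_mod_cast Nat.div_mul_cancel (Nat.gcd_dvd_left n k)
      have e2 : ((k / Nat.gcd n k : ℕ) : ℤ) * (Nat.gcd n k : ℕ) = k := by
        exact_mod_cast Nat.div_mul_cancel (Nat.gcd_dvd_right n k)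
      have e3 : ((k' / Nat.gcd n k' : ℕ) : ℤ) * (Nat.gcd n k : ℕ) = k' := by
        rw [gcd_eq hkk']
        exact_mod_cast Nat.div_mul_cancel (Nat.gcd_dvd_right n k')
      have hkkz : (k : ℤ) + k' = n := by exact_mod_cast hkk'
      -- the total weight
      have htot : ∑ s, cut k w s = (n / Nat.gcd n k : ℕ) * c := by
        have h1 : ∑ v : Fin n, ∑ s with v ∈ s, cut k w s = ∑ s, (s.card : ℤ) * cut k w s := by
          simp_rw [Finset.sum_filter]
          rw [Finset.sum_comm]
          refine Finset.sum_congr rfl fun s _ => ?_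
          rw [← Finset.sum_filter, Finset.sum_const]
          simp
        have h2 : ∑ s : Finset (Fin n), (s.card : ℤ) * cut k w s = (k : ℤ) * ∑ s, cut k w s := by
          rw [Finset.mul_sum]
          refine Finset.sum_congr rfl fun s _ => ?_
          by_cases h : s.card = k
          · rw [h]
          · simp [cut, h]
        rw [h2] at h1
        simp_rw [hc] at h1
        rw [Finset.sum_const, Finset.card_univ, Fintype.card_fin, nsmul_eq_mul] at h1
        have hkz : (k : ℤ) ≠ 0 := by exact_mod_cast (by omega : k ≠ 0)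
        apply mul_left_cancel₀ hkz
        rw [← h1, ← e1, ← e2]
        ring
      have hdeg : ∀ v : Fin n, ∑ s with v ∈ s, cut k' (fun s => w sᶜ) s =
          (k' / Nat.gcd n k' : ℕ) * c := by
        intro v
        have h1 : ∑ s with v ∈ s, cut k' (fun s => w sᶜ) s = ∑ s with v ∉ s, cut k w s := by
          refine Finset.sum_nbij' (fun s => sᶜ) (fun s => sᶜ) ?_ ?_ ?_ ?_ ?_
          · intro s hs
            simpa using hs
          · intro s hs
            simpa using hs
          · intro s _; exact compl_compl s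
          · intro s _; exact compl_compl s
          · intro s _
            have hcc : sᶜ.card = n - s.card := by rw [Finset.card_compl, Fintype.card_fin]
            have hle : s.card ≤ n := by simpa using Finset.card_le_univ s
            simp only [cut]
            by_cases hs : s.card = k'
            · rw [if_pos hs, if_pos (by omega)]
            · rw [if_neg hs, if_neg (by omega)]
        have h2 := Finset.sum_filter_add_sum_filter_not (univ : Finset (Finset (Fin n)))
          (fun s => v ∈ s) (cut k w)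
        rw [hc, htot] at h2
        rw [h1]
        apply mul_left_cancel₀ hgz
        have h3 : ∑ s with v ∉ s, cut k w s =
          (n / Nat.gcd n k : ℕ) * c - (k / Nat.gcd n k : ℕ) * c := by linarith
        rw [h3]
        linear_combination c * e1 - c * e2 - c * e3 - c * hkkz
      obtain ⟨Λ, hΛ⟩ := small hn (by omega : 1 ≤ k') (by omega) (fun s => w sᶜ) c hdeg
      refine ⟨Λ, fun l hl => ?_⟩
      have h1 := compl_mem hn hkk' _ (hΛ l hl)
      convert h1 using 1
      funext s
      have hcc : sᶜ.card = n - s.card := by rw [Finset.card_compl, Fintype.card_fin]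
      have hle : s.card ≤ n := by simpa using Finset.card_le_univ s
      simp only [Pi.add_apply, Pi.smul_apply, smul_eq_mul, cut, J, compl_compl]
      by_cases hs : s.card = k
      · rw [if_pos hs, if_pos hs, if_pos (by omega), if_pos (by omega)]
      · rw [if_neg hs, if_neg hs, if_neg (by omega), if_neg (by omega)]
    · have hkn' : k = n := by omega
      subst hkn'
      obtain ⟨Λ, hΛ⟩ := nonneg_large k w
      exact ⟨Λ, fun l hl => full hn _ (hΛ l hl) (cut_add_supp k w l)⟩

/-- For all `1 ≤ k ≤ n`: an integer weighting `w` of the `k`-subsets of an `n`-set has all vertex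
degrees equal to one multiple of `k / gcd (n, k)` (and, if `n = 2k`, gives complementary sets the
same weight) if and only if for all large `l` the multiset with `w s + l` copies of each `k`-set `s`
splits into wreaths. -/
theorem result : ∀ n k : ℕ, ∀ hn : 0 < n, 1 ≤ k → k ≤ n → ∀ w : Finset (Fin n) → ℤ,
    ((∃ c : ℤ, ∀ v : Fin n,
        ∑ s ∈ (Finset.univ : Finset (Finset (Fin n))) with (s.card = k ∧ v ∈ s), w s =
          (k / Nat.gcd n k : ℕ) * c) ∧
      (n = 2 * k → ∀ s : Finset (Fin n), s.card = k → w sᶜ = w s)) ↔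
    ∃ Λ : ℕ, ∀ l : ℕ, Λ ≤ l →
      ∃ (m : ℕ) (σ : Fin m → Equiv.Perm (Fin n)),
        ∀ s : Finset (Fin n), s.card = k →
          (Nat.card {p : Fin m × Fin (n / Nat.gcd n k) //
            (Finset.univ : Finset (Fin k)).image
              (fun j => σ p.1 ⟨(p.2.val * k + j.val) % n, Nat.mod_lt _ hn⟩) = s} : ℤ) =
            w s + l := by
  classical
  intro n k hn hk hkn w
  constructor
  · rintro ⟨⟨c, hc⟩, hsym⟩
    obtain ⟨Λ, hΛ⟩ := forward hn hk hkn w c (fun v => by rw [deg_cut, hc]) hsym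
    refine ⟨Λ, fun l hl => ?_⟩
    obtain ⟨m, σ, hσ⟩ := N_list _ _ (hΛ l hl)
    refine ⟨m, σ, fun s hs => ?_⟩
    rw [count hn σ s, ← hσ]
    simp [cut, J, hs]
  · rintro ⟨Λ, hΛ⟩
    obtain ⟨m, σ, hσ⟩ := hΛ Λ le_rfl
    have heq : cut k w + (Λ : ℤ) • J k = ∑ i, vec (wr n k hn) (σ i) := by
      funext s
      by_cases hs : s.card = k
      · rw [← count hn σ s, hσ s hs]
        simp [cut, J, hs]
      · rw [cut_add_supp k w Λ s hs, Finset.sum_apply]
        exact (Finset.sum_eq_zero fun i _ => vec_supp _ k (wr_card n k hn hkn) _ s hs).symm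
    constructor
    · obtain ⟨C, hC⟩ := dvd_choose hk hkn
      refine ⟨(m : ℤ) - Λ * C, fun v => ?_⟩
      rw [← deg_cut]
      have h1 : ∑ s with v ∈ s, (cut k w + (Λ : ℤ) • J (V := Fin n) k) s =
          (k / Nat.gcd n k : ℕ) * m := by
        rw [heq]
        simp only [Finset.sum_apply]
        rw [Finset.sum_comm]
        have h2 : ∀ i, ∑ s with v ∈ s, vec (wr n k hn) (σ i) s = (k / Nat.gcd n k : ℕ) :=
          fun i => deg_vec _ _ (wr_deg n k hn hkn) (σ i) v
        simp_rw [h2]
        simp [mul_comm]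
      simp only [Pi.add_apply, Pi.smul_apply, smul_eq_mul] at h1
      rw [Finset.sum_add_distrib, ← Finset.mul_sum, deg_J k v hk, Fintype.card_fin, hC] at h1
      push_cast at h1 ⊢
      linarith
    · intro h2k s hs
      have hcc : sᶜ.card = k := by
        rw [Finset.card_compl, Fintype.card_fin]; omega
      have h1 := congrFun heq s
      have h2 := congrFun heq sᶜ
      simp only [Pi.add_apply, Pi.smul_apply, smul_eq_mul, cut, J, hs, hcc, if_true,
        Finset.sum_apply] at h1 h2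
      have h3 : ∀ i, vec (wr n k hn) (σ i) sᶜ = vec (wr n k hn) (σ i) s :=
        fun i => vec_compl hn (by omega) (σ i) s
      simp_rw [h3] at h2
      linarith

end Pool.Agent.Results.MP_4bad09_co.ManyFold
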