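import Pool.Agent.H.MP_4bad09_co.R4

set_option autoImplicit false

/-!
# The cases `n = 2 k + 1` and `n = 2 k - 1` of the wreath decomposition conjecture

For every `k ≥ 1` the complete hypergraphs `K_(2k+1)^k` and `K_(2k-1)^k` have wreath decompositions.
-/

namespace Pool.Agent.Results.MP_4bad09_co.NextToHalf

/-- `K_n^k` has a wreath decomposition: there are cyclic orderings `σ i` of the `n` vertices such that every
`k`-subset is, exactly once, an edge (positions `p k, p k + 1, …, p k + k - 1` modulo `n`,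
`p < n / gcd (n, k)`) of the wreath of one of them. -/
def HasWreathDec (n k : ℕ) (hn : 0 < n) : Prop :=
  ∃ (m : ℕ) (σ : Fin m → Equiv.Perm (Fin n)),
    ∀ s : Finset (Fin n), s.card = k →
      ∃! p : Fin m × Fin (n / Nat.gcd n k),
        (Finset.univ : Finset (Fin k)).image
          (fun j => σ p.1 ⟨(p.2.val * k + j.val) % n, Nat.mod_lt _ hn⟩) = s

theorem result : ∀ (n k : ℕ) (hn : 0 < n), 1 ≤ k → (n = 2 * k + 1 ∨ n + 1 = 2 * k) → HasWreathDec n k hn := by
  intro n k hn _ hnk
  rcases hnk with h | h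
  · -- `n = 2 k + 1`
    have hg : Nat.gcd n k = 1 := by
      rw [h, show 2 * k + 1 = 1 + 2 * k by omega]
      simp
    have hq : n / Nat.gcd n k = n := by rw [hg, Nat.div_one]
    refine ⟨(BinaryTree.treesOfNumNodesEq k).card, WrR.sgs k n h, ?_⟩
    refine WrR.unique_of_cover (k := k)
      (fun p : Fin (BinaryTree.treesOfNumNodesEq k).card × Fin (n / Nat.gcd n k) =>
        WrR.win hn k (WrR.sgs k n h p.1) (p.2.val * k)) ?_ ?_
    · rw [Fintype.card_prod, Fintype.card_fin, Fintype.card_fin, hq,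
        BinaryTree.treesOfNumNodesEq_card_eq_catalan, h, WrR.catalan_mul]
    · intro s hs
      obtain ⟨i, t, ht, hw⟩ := WrR.cover_fin k n hn h s hs
      refine ⟨(i, ⟨(2 * (n - t)) % n, by rw [hq]; exact Nat.mod_lt _ hn⟩), ?_⟩
      rw [← hw]
      refine WrR.win_mod hn k _ ?_
      show (2 * (n - t)) % n * k ≡ t [MOD n]
      have h1 : (2 * (n - t)) % n * k ≡ 2 * (n - t) * k [MOD n] := (Nat.mod_modEq _ _).mul_right k
      refine h1.trans ?_
      have h2 : 2 * (n - t) * k + (n - t) = n * (n - t) := by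
        rw [show 2 * (n - t) * k + (n - t) = (2 * k + 1) * (n - t) by ring, ← h]
      have h3 : 2 * (n - t) * k + (n - t) ≡ t + (n - t) [MOD n] := by
        rw [h2, show t + (n - t) = n by omega]
        unfold Nat.ModEq
        rw [Nat.mul_mod_right, Nat.mod_self]
      exact Nat.ModEq.add_right_cancel' _ h3
  · -- `n = 2 k - 1`
    obtain ⟨l, rfl⟩ : ∃ l, k = l + 1 := ⟨k - 1, by omega⟩
    have h' : n = 2 * l + 1 := by omega
    have hg : Nat.gcd n (l + 1) = 1 := by
      rw [Nat.gcd_comm]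
      have h1 : Nat.gcd (l + 1) n ∣ 2 * (l + 1) := (Nat.gcd_dvd_left _ _).mul_left 2
      have h2 : Nat.gcd (l + 1) n ∣ n := Nat.gcd_dvd_right _ _
      have h3 : Nat.gcd (l + 1) n ∣ 2 * (l + 1) - n := Nat.dvd_sub h1 h2
      rw [show 2 * (l + 1) - n = 1 by omega] at h3
      exact Nat.dvd_one.mp h3
    have hq : n / Nat.gcd n (l + 1) = n := by rw [hg, Nat.div_one]
    refine ⟨(BinaryTree.treesOfNumNodesEq l).card, WrR.sgs l n h', ?_⟩
    refine WrR.unique_of_cover (k := l + 1)
      (fun p : Fin (BinaryTree.treesOfNumNodesEq l).card × Fin (n / Nat.gcd n (l + 1)) =>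
        WrR.win hn (l + 1) (WrR.sgs l n h' p.1) (p.2.val * (l + 1))) ?_ ?_
    · rw [Fintype.card_prod, Fintype.card_fin, Fintype.card_fin, hq,
        BinaryTree.treesOfNumNodesEq_card_eq_catalan, h', WrR.catalan_mul]
      rw [← Nat.choose_symm (show l + 1 ≤ 2 * l + 1 by omega)]
      congr 1
      omega
    · intro s hs
      have hsc : sᶜ.card = l := by
        rw [Finset.card_compl, Fintype.card_fin, hs]
        omega
      obtain ⟨i, t, ht, hw⟩ := WrR.cover_fin l n hn h' sᶜ hsc
      have hw2 := WrR.win_compl hn l (l + 1) (by omega) _ t s hs hw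
      refine ⟨(i, ⟨(2 * (t + l)) % n, by rw [hq]; exact Nat.mod_lt _ hn⟩), ?_⟩
      rw [← hw2]
      refine WrR.win_mod hn (l + 1) _ ?_
      show (2 * (t + l)) % n * (l + 1) ≡ t + l [MOD n]
      have h1 : (2 * (t + l)) % n * (l + 1) ≡ 2 * (t + l) * (l + 1) [MOD n] := (Nat.mod_modEq _ _).mul_right _
      refine h1.trans ?_
      rw [show 2 * (t + l) * (l + 1) = (2 * l + 1) * (t + l) + (t + l) by ring, ← h']
      unfold Nat.ModEq
      rw [Nat.mul_add_mod]

end Pool.Agent.Results.MP_4bad09_co.NextToHalf
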