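import Pool.Agent.H.MP_4bad09_co.Y8
import Pool.Agent.H.MP_4bad09_co.Y9
import Pool.Agent.H.MP_4bad09_co.B1
import Pool.Agent.H.MP_4bad09_co.B23
import Pool.Agent.H.MP_4bad09_co.B25
import Pool.Agent.H.MP_4bad09_co.B29
import Pool.Agent.H.MP_4bad09_co.B35
import Pool.Agent.H.MP_4bad09_co.B41
import Pool.Agent.H.MP_4bad09_co.B49
import Pool.Agent.H.MP_4bad09_co.B53

set_option autoImplicit false

/-!
# The case `k = 3` (and `k = n - 3`) of the wreath decomposition conjecture reduces to primes

Product theorem: if the triples of an `a`-set and of a `b`-set can be partitioned into the edge sets of tight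
Hamilton cycles, `a ≥ 5`, `b ≥ 11` odd and prime to `3` (for `b = 11, 13` the decomposition has to be the
explicit one), then also the triples of an `a b`-set; the same for `2 b`, `b ≥ 4`, `b ≠ 5`.
-/

namespace Pool.Agent.Results.MP_4bad09_co.PrimeReduction

/-- `K_n^k` has a wreath decomposition: there are cyclic orderings `σ i` of the `n` vertices such that every
`k`-subset is, exactly once, an edge (positions `p k, p k + 1, …, p k + k - 1` modulo `n`,
`p < n / gcd (n, k)`) of the wreath of one of them. -/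
def HasWreathDec (n k : ℕ) (hn : 0 < n) : Prop :=
  ∃ (m : ℕ) (σ : Fin m → Equiv.Perm (Fin n)),
    ∀ s : Finset (Fin n), s.card = k →
      ∃! p : Fin m × Fin (n / Nat.gcd n k),
        (Finset.univ : Finset (Fin k)).image
          (fun j => σ p.1 ⟨(p.2.val * k + j.val) % n, Nat.mod_lt _ hn⟩) = s

theorem result : ∀ (n : ℕ) (hn : 0 < n), 4 ≤ n → ¬ 3 ∣ n →
    (∀ (p : ℕ) (hp : 0 < p), p.Prime → p ∣ n →
      p ∉ ({2, 5, 7, 11, 13, 17, 19, 23, 29, 41, 53} : Finset ℕ) → HasWreathDec p 3 hp) →
    HasWreathDec n 3 hn ∧ HasWreathDec n (n - 3) hn := by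
  intro n hn h4 h3 hp
  have key : Wr.TH (Fin n) n := by
    refine Wr.TH_induct Wr.TH4 Wr.TH10 Wr.TH25 Wr.TH35 Wr.TH49 Wr.THe5 Wr.THe6 n h4 h3 ?_
    intro p hpp hp5 hpn
    by_cases hmem : p ∈ ({2, 5, 7, 11, 13, 17, 19, 23, 29, 41, 53} : Finset ℕ)
    · simp only [Finset.mem_insert, Finset.mem_singleton] at hmem
      rcases hmem with rfl | rfl | rfl | rfl | rfl | rfl | rfl | rfl | rfl | rfl | rfl
      · omega
      · exact Wr.TH5
      · exact Wr.TH7
      · exact Wr.TH11
      · exact Wr.TH13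
      · exact Wr.TH17
      · exact Wr.TH19
      · exact Wr.TH23
      · exact Wr.TH29
      · exact Wr.TH41
      · exact Wr.TH53
    · have h3p : ¬ 3 ∣ p := by
        intro h
        have h1 := (Nat.prime_dvd_prime_iff_eq Nat.prime_three hpp).1 h
        omega
      exact Wr.HasWreath.th (by omega) h3p (hp p (by omega) hpp hpn hmem)
  exact ⟨Wr.TH.wreath h4 h3 key, Wr.TH.wreath' h4 h3 key⟩

end Pool.Agent.Results.MP_4bad09_co.PrimeReduction
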