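import Pool.Agent.H.MP_4bad09_co.Z6

set_option autoImplicit false

/-!
# The cases `n = 2 k + 2` and `n = 2 k - 2`, `k` even, of the wreath decomposition conjecture

For every even `k ≥ 2` the complete hypergraphs `K_(2k+2)^k` and `K_(2k-2)^k` have wreath decompositions.
-/

namespace Pool.Agent.Results.MP_4bad09_co.TwoFromHalf

/-- `K_n^k` has a wreath decomposition: there are cyclic orderings `σ i` of the `n` vertices such that every
`k`-subset is, exactly once, an edge (positions `p k, p k + 1, …, p k + k - 1` modulo `n`,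
`p < n / gcd (n, k)`) of the wreath of one of them. -/
def HasWreathDec (n k : ℕ) (hn : 0 < n) : Prop :=
  ∃ (m : ℕ) (σ : Fin m → Equiv.Perm (Fin n)),
    ∀ s : Finset (Fin n), s.card = k →
      ∃! p : Fin m × Fin (n / Nat.gcd n k),
        (Finset.univ : Finset (Fin k)).image
          (fun j => σ p.1 ⟨(p.2.val * k + j.val) % n, Nat.mod_lt _ hn⟩) = s

theorem result : ∀ (n k : ℕ) (hn : 0 < n), 1 ≤ k → Even k → (n = 2 * k + 2 ∨ n + 2 = 2 * k) →
    HasWreathDec n k hn := by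
  intro n k hn hk1 hk hnk
  rcases hnk with h | h
  · -- `n = 2 k + 2`
    obtain ⟨J, hJ⟩ := hk
    obtain rfl : k = 2 * J := by omega
    have hnJ : n = 2 * (2 * J + 1) := by omega
    have hg : Nat.gcd n (2 * J) = 2 := by
      rw [hnJ, Nat.gcd_mul_left, show 2 * J + 1 = 1 + 2 * J by omega]
      simp
    have hq : n / Nat.gcd n (2 * J) = 2 * J + 1 := by
      rw [hg, hnJ, Nat.mul_div_cancel_left _ (by omega)]
    refine ⟨(BinaryTree.treesOfNumNodesEq (2 * J + 1)).card, WrR.sges J n hnJ, ?_⟩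
    refine WrR.unique_of_cover (k := 2 * J)
      (fun p : Fin (BinaryTree.treesOfNumNodesEq (2 * J + 1)).card × Fin (n / Nat.gcd n (2 * J)) =>
        WrR.win hn (2 * J) (WrR.sges J n hnJ p.1) (p.2.val * (2 * J))) ?_ ?_
    · rw [Fintype.card_prod, Fintype.card_fin, Fintype.card_fin, hq,
        BinaryTree.treesOfNumNodesEq_card_eq_catalan, WrR.catalan_mul_ev _ (by omega), hnJ]
      congr 1
    · intro s hs
      obtain ⟨i, p, hp, hw⟩ := WrR.cover_fin_ev J n hn hnJ s hs
      exact ⟨(i, ⟨p, by rw [hq]; exact hp⟩), hw⟩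
  · -- `n = 2 k - 2`
    obtain ⟨J', hJ'⟩ := hk
    obtain ⟨J, rfl⟩ : ∃ J, J' = J + 1 := ⟨J' - 1, by omega⟩
    obtain rfl : k = 2 * (J + 1) := by omega
    have hnJ : n = 2 * (2 * J + 1) := by omega
    have hg : Nat.gcd n (2 * (J + 1)) = 2 := by
      rw [hnJ, Nat.gcd_mul_left]
      have h1 : Nat.gcd (2 * J + 1) (J + 1) ∣ 2 * (J + 1) := (Nat.gcd_dvd_right _ _).mul_left 2
      have h2 : Nat.gcd (2 * J + 1) (J + 1) ∣ 2 * J + 1 := Nat.gcd_dvd_left _ _
      have h3 : Nat.gcd (2 * J + 1) (J + 1) ∣ 2 * (J + 1) - (2 * J + 1) := Nat.dvd_sub h1 h2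
      rw [show 2 * (J + 1) - (2 * J + 1) = 1 by omega] at h3
      rw [Nat.dvd_one.mp h3]
    have hq : n / Nat.gcd n (2 * (J + 1)) = 2 * J + 1 := by
      rw [hg, hnJ, Nat.mul_div_cancel_left _ (by omega)]
    refine ⟨(BinaryTree.treesOfNumNodesEq (2 * J + 1)).card, WrR.sges J n hnJ, ?_⟩
    refine WrR.unique_of_cover (k := 2 * (J + 1))
      (fun p : Fin (BinaryTree.treesOfNumNodesEq (2 * J + 1)).card × Fin (n / Nat.gcd n (2 * (J + 1))) =>
        WrR.win hn (2 * (J + 1)) (WrR.sges J n hnJ p.1) (p.2.val * (2 * (J + 1)))) ?_ ?_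
    · rw [Fintype.card_prod, Fintype.card_fin, Fintype.card_fin, hq,
        BinaryTree.treesOfNumNodesEq_card_eq_catalan, WrR.catalan_mul_ev _ (by omega), hnJ,
        ← Nat.choose_symm (show 2 * (J + 1) ≤ 2 * (2 * J + 1) by omega)]
      congr 1
      omega
    · intro s hs
      have hsc : sᶜ.card = 2 * J := by
        rw [Finset.card_compl, Fintype.card_fin, hs]
        omega
      obtain ⟨i, p, hp, hw⟩ := WrR.cover_fin_ev J n hn hnJ sᶜ hsc
      have hw2 := WrR.win_compl hn (2 * J) (2 * (J + 1)) (by omega) _ (p * (2 * J)) s hs hw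
      refine ⟨(i, ⟨2 * J + 1 - (p + 1), by rw [hq]; omega⟩), ?_⟩
      rw [← hw2]
      refine WrR.win_mod hn (2 * (J + 1)) _ ?_
      show (2 * J + 1 - (p + 1)) * (2 * (J + 1)) ≡ p * (2 * J) + 2 * J [MOD n]
      obtain ⟨r, hr⟩ : ∃ r, 2 * J + 1 = r + (p + 1) := ⟨2 * J + 1 - (p + 1), by omega⟩
      have h1 : (2 * J + 1 - (p + 1)) = r := by omega
      rw [h1]
      have h2 : r * (2 * (J + 1)) + (p + 1) * n = p * (2 * J) + 2 * J + n * (J + 1) := by
        rw [hnJ]
        have h3 : (r + (p + 1)) * (2 * (J + 1)) = (2 * J + 1) * (2 * (J + 1)) := by rw [← hr]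
        have h4 : (r + (p + 1)) * (2 * (J + 1)) = r * (2 * (J + 1)) + (p + 1) * (2 * (J + 1)) := by ring
        have h5 : r * (2 * (J + 1)) + (p + 1) * (2 * (J + 1)) = (2 * J + 1) * (2 * (J + 1)) := by rw [← h4, h3]
        have h6 : (p + 1) * (2 * (2 * J + 1)) = (p + 1) * (2 * (J + 1)) + (p + 1) * (2 * J) := by ring
        rw [h6, ← Nat.add_assoc, h5]
        ring
      have h3 : r * (2 * (J + 1)) ≡ r * (2 * (J + 1)) + (p + 1) * n [MOD n] := by
        unfold Nat.ModEq
        rw [Nat.add_mul_mod_self_right]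
      refine h3.trans ?_
      rw [h2]
      unfold Nat.ModEq
      rw [Nat.add_mul_mod_self_left]

end Pool.Agent.Results.MP_4bad09_co.TwoFromHalf
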